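import Mathlib

/-!
# Deciding diffeomorphism of homeomorphic 4-manifolds (MP_d40431_gt): definitions

Finite triangulations, their realizations, PL homeomorphism, combinatorial 4-manifolds,
algorithms, presentations, and the theorems of the literature which are used.
-/

namespace Pool.Agent.L7h8.DD

/-- A finite simplicial complex with vertices in `ℕ`, given by a finite list of simplices
(lists of vertices): a set of vertices is a simplex iff it is contained in one of them. -/
abbrev Cx : Type := List (List ℕ)

/-- The realization of the complex `K` in `ℝ^ℕ`: the vertex `v` is the unit vector `e_v`,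
and `|K|` is the union of the convex hulls of the vertex sets of the simplices. -/
def body (K : Cx) : Set (ℕ → ℝ) :=
  ⋃ σ ∈ K, convexHull ℝ ((fun v : ℕ => (Pi.single v 1 : ℕ → ℝ)) '' {v | v ∈ σ})

/-- `|K|` and `|L|` are homeomorphic. -/
def Homeo (K L : Cx) : Prop := Nonempty (body K ≃ₜ body L)

/-- A (continuous) map between the polyhedra `|K|`, `|L|` is piecewise linear: at each point
its value is that of one of finitely many affine maps. -/
def IsPL {K L : Cx} (f : body K → body L) : Prop :=
  ∃ G : Set ((ℕ → ℝ) →ᵃ[ℝ] (ℕ → ℝ)), G.Finite ∧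
    ∀ x : body K, ∃ g ∈ G, (f x : ℕ → ℝ) = g (x : ℕ → ℝ)

/-- `|K|` and `|L|` are PL homeomorphic. -/
def PLHomeo (K L : Cx) : Prop :=
  ∃ h : body K ≃ₜ body L, IsPL (fun x => h x) ∧ IsPL (fun y => h.symm y)

/-- The link of the vertex `v`. -/
def link (K : Cx) (v : ℕ) : Cx :=
  (K.filter (fun σ => decide (v ∈ σ))).map (fun σ => σ.filter (fun u => decide (u ≠ v)))

/-- The boundary of the 4-simplex, the PL 3-sphere. -/
def sphere3 : Cx := [[1, 2, 3, 4], [0, 2, 3, 4], [0, 1, 3, 4], [0, 1, 2, 4], [0, 1, 2, 3]]

/-- The 3-simplex, the PL 3-ball. -/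
def ball3 : Cx := [[0, 1, 2, 3]]

/-- `K` is a combinatorial 4-manifold, possibly with boundary: the link of every vertex is
a PL 3-sphere or a PL 3-ball. -/
def Manifold4 (K : Cx) : Prop :=
  ∀ σ ∈ K, ∀ v ∈ σ, PLHomeo (link K v) sphere3 ∨ PLHomeo (link K v) ball3

/-- `K` is a connected combinatorial 4-manifold without boundary. -/
def Closed4 (K : Cx) : Prop :=
  IsConnected (body K) ∧ ∀ σ ∈ K, ∀ v ∈ σ, PLHomeo (link K v) sphere3

/-- The partial computable function `A` solves the promise problem for the class `adm` of
triangulations: it halts on all pairs of admissible triangulations which are homeomorphic,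
and says whether they are PL homeomorphic. -/
def Solves (A : Cx × Cx →. Bool) (adm : Cx → Prop) : Prop :=
  Partrec A ∧ ∀ K L : Cx, adm K → adm L → Homeo K L →
    ∃ b ∈ A (K, L), (b = true ↔ PLHomeo K L)

/-- Words in the generators `x_i`, `i < m`, and their inverses. -/
abbrev Word (m : ℕ) : Type := List (Fin m × Bool)

/-- The word `w` is trivial in the group with generators `x_i`, `i < m`, and relators `R`. -/
def IsTrivial {m : ℕ} (R : List (Word m)) (w : Word m) : Prop :=
  FreeGroup.mk w ∈ Subgroup.normalClosure {g | ∃ r ∈ R, g = FreeGroup.mk r}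

/-- The theorem of Novikov and Boone: a finitely presented group with unsolvable word
problem. -/
def NovikovBoone : Prop :=
  ∃ (m : ℕ) (R : List (Word m)), ¬ ComputablePred (fun w : Word m => IsTrivial R w)

/-- Data for a 5-dimensional handlebody `N(D)` with one 0-handle, `m` orientable 1-handles
and, for each entry `(r, δ)` of `D`, a 2-handle attached along a circle with word `r`, with
the framing over which the standard spin structure of the 1-handlebody extends (`δ = false`)
or does not extend (`δ = true`). -/
abbrev Handles (m : ℕ) : Type := List (Word m × Bool)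

/-- The universal cover of `∂N(D)` (equivalently of `N(D)`) is spin, in algebraic terms: the
class `w_2(N(D))`, which is represented by the cochain `δ`, is pulled back from a group, that
is, the generators can be sent to a group with a central element `ζ` of order two such that
each relator `r` goes to `ζ^δ`. -/
def SpinCover {m : ℕ} (D : Handles m) : Prop :=
  ∃ (E : Type) (_ : Group E) (ζ : E) (φ : FreeGroup (Fin m) →* E),
    ζ ≠ 1 ∧ ζ * ζ = 1 ∧ (∀ g, φ g * ζ = ζ * φ g) ∧
      ∀ p ∈ D, φ (FreeGroup.mk p.1) = if p.2 then ζ else 1

end Pool.Agent.L7h8.DD
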