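import Pool.Agent.L7h8.DD.Red

/-!
# MP_d40431_gt: PL homeomorphism is an equivalence relation; the reduction is computable
-/

namespace Pool.Agent.L7h8.DD

theorem PLHomeo.refl (K : Cx) : PLHomeo K K := by
  refine ⟨Homeomorph.refl _, ⟨{AffineMap.id ℝ _}, Set.finite_singleton _, fun x => ⟨_, rfl, rfl⟩⟩,
    ⟨{AffineMap.id ℝ _}, Set.finite_singleton _, fun x => ⟨_, rfl, rfl⟩⟩⟩

theorem PLHomeo.symm {K L : Cx} (h : PLHomeo K L) : PLHomeo L K := by
  obtain ⟨f, h1, h2⟩ := h
  exact ⟨f.symm, h2, h1⟩

theorem IsPL.comp {K L M : Cx} {f : body K → body L} {g : body L → body M} (hf : IsPL f)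
    (hg : IsPL g) : IsPL (fun x => g (f x)) := by
  obtain ⟨G, hG, h1⟩ := hf
  obtain ⟨G', hG', h2⟩ := hg
  refine ⟨Set.image2 (fun a b => b.comp a) G G', hG.image2 _ hG', fun x => ?_⟩
  obtain ⟨a, ha, h3⟩ := h1 x
  obtain ⟨b, hb, h4⟩ := h2 (f x)
  refine ⟨b.comp a, ⟨a, ha, b, hb, rfl⟩, ?_⟩
  rw [h4, h3]; rfl

theorem PLHomeo.trans {K L M : Cx} (h : PLHomeo K L) (h' : PLHomeo L M) : PLHomeo K M := by
  obtain ⟨f, h1, h2⟩ := h
  obtain ⟨g, h3, h4⟩ := h'
  exact ⟨f.trans g, h1.comp h3, h4.comp h2⟩

theorem primrec_iv {m : ℕ} : Primrec (iv : Word m → Word m) := by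
  unfold iv
  refine Primrec.list_reverse.comp (Primrec.list_map Primrec.id ?_)
  exact (Primrec.pair (Primrec.fst.comp Primrec.snd)
    (Primrec.not.comp (Primrec.snd.comp Primrec.snd))).to₂

theorem primrec_cm {m : ℕ} : Primrec₂ (cm : Word m → Word m → Word m) := by
  have h1 : Primrec (fun p : Word m × Word m => p.1) := Primrec.fst
  have h2 : Primrec (fun p : Word m × Word m => p.2) := Primrec.snd
  have h3 : Primrec (fun p : Word m × Word m => p.1 ++ p.2 ++ iv p.1 ++ iv p.2) :=
    Primrec.list_append.comp (Primrec.list_append.comp (Primrec.list_append.comp h1 h2)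
      (primrec_iv.comp h1)) (primrec_iv.comp h2)
  exact h3

theorem primrec_emb {m : ℕ} : Primrec (emb : Word m → Word (m + 2)) := by
  have h1 : Primrec (fun q : Word m × (Fin m × Bool) => (Fin.castAdd 2 q.2.1 : Fin (m + 2))) :=
    (Primrec.dom_finite (Fin.castAdd 2 : Fin m → Fin (m + 2))).comp
      (Primrec.fst.comp Primrec.snd)
  have h2 : Primrec (fun q : Word m × (Fin m × Bool) => q.2.2) := Primrec.snd.comp Primrec.snd
  have h3 : Primrec₂ (fun (_ : Word m) (p : Fin m × Bool) =>
      ((Fin.castAdd 2 p.1, p.2) : Fin (m + 2) × Bool)) := Primrec.pair h1 h2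
  exact Primrec.list_map Primrec.id h3

theorem primrec_zw {m : ℕ} : Primrec (zw : Word m → Word (m + 2)) := by
  have h1 : Primrec (fun w : Word m => cm (emb w) (gx m)) :=
    primrec_cm.comp primrec_emb (Primrec.const (gx m))
  have h2 : Primrec (fun w : Word m => cm (cm (emb w) (gx m)) (gb m)) :=
    primrec_cm.comp h1 (Primrec.const (gb m))
  exact h2

theorem primrec_rels {m : ℕ} (R : List (Word m)) : Primrec (rels R) := by
  have h1 : Primrec₂ (fun (w : Word m) (i : Fin (m + 2)) => cm (zw w) [(i, true)]) := by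
    have h3 : Primrec (fun q : Word m × Fin (m + 2) => zw q.1) := primrec_zw.comp Primrec.fst
    have h4 : Primrec (fun q : Word m × Fin (m + 2) => ([(q.2, true)] : Word (m + 2))) :=
      Primrec.list_cons.comp (Primrec.pair Primrec.snd (Primrec.const true)) (Primrec.const [])
    exact primrec_cm.comp h3 h4
  have h2 : Primrec (fun w : Word m => (List.finRange (m + 2)).map
      (fun i => cm (zw w) [(i, true)])) :=
    Primrec.list_map (Primrec.const (List.finRange (m + 2))) h1
  have h5 : Primrec (fun w : Word m => [zw w ++ zw w]) :=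
    Primrec.list_cons.comp (Primrec.list_append.comp primrec_zw primrec_zw) (Primrec.const [])
  have h6 : Primrec (fun w : Word m => (List.finRange (m + 2)).map
      (fun i => cm (zw w) [(i, true)]) ++ [zw w ++ zw w]) := Primrec.list_append.comp h2 h5
  exact Primrec.list_append.comp (Primrec.const (R.map emb)) h6

theorem primrec_hd {m : ℕ} (R : List (Word m)) : Primrec (hd R) := by
  have h1 : Primrec₂ (fun (_ : Word m) (r : Word (m + 2)) => ((r, false) : Word (m + 2) × Bool)) :=
    Primrec.pair Primrec.snd (Primrec.const false)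
  have h2 : Primrec (fun w : Word m => (rels R w).map (fun r => ((r, false) : Word (m + 2) × Bool))) :=
    Primrec.list_map (primrec_rels R) h1
  have h3 : Primrec (fun w : Word m => ((zw w, true) : Word (m + 2) × Bool)) :=
    Primrec.pair primrec_zw (Primrec.const true)
  exact Primrec.list_cons.comp h3 h2

/-- a partial algorithm which is right on a computable family of inputs decides -/
theorem decides {α : Type} [Primcodable α] (A : Cx × Cx →. Bool) (hA : Partrec A)
    (f : α → Cx × Cx) (hf : Computable f) (P : α → Prop)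
    (h : ∀ a, ∃ b ∈ A (f a), (b = true ↔ P a)) : ComputablePred P := by
  classical
  choose b hb hP using h
  have h1 : Partrec (fun a => A (f a)) := hA.comp hf
  have h2 : Computable b := by
    refine Partrec.of_eq h1 (fun a => ?_)
    exact Part.eq_some_iff.mpr (hb a)
  rw [ComputablePred.computable_iff]
  exact ⟨b, h2, by ext a; rw [← hP a]⟩

end Pool.Agent.L7h8.DD
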