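import Pool.Agent.L7h8.DD.Defs

/-!
# MP_d40431_gt: the group theory

For `w` nontrivial in `U = <R>`, the commutator `c = [w, x]` has infinite order in `U * <x>`;
there is a permutation `b` of `(U * <x>) × {±1}` with `[c, b] = -1`.
-/

namespace Pool.Agent.L7h8.DD

open Monoid

section FreeProd
variable {H : Type} [Group H]

theorem prod_ne_one {i j : Bool} (w : CoprodI.NeWord (fun _ : Bool => H) i j) : w.prod ≠ 1 := by
  classical
  intro h
  have h1 : CoprodI.Word.prod w.toWord = CoprodI.Word.prod CoprodI.Word.empty := by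
    rw [CoprodI.Word.prod_empty]; exact h
  have h2 : w.toWord = CoprodI.Word.empty := by
    have := (CoprodI.Word.equiv (M := fun _ : Bool => H)).symm.injective
    exact this h1
  have h3 := congrArg CoprodI.Word.toList h2
  exact CoprodI.NeWord.toList_ne_nil w h3

/-- `(a x a⁻¹ x⁻¹)^(k+1)` as a reduced word -/
def comWord (a x : H) (ha : a ≠ 1) (hx : x ≠ 1) : ℕ → CoprodI.NeWord (fun _ : Bool => H) true false
  | 0 => ((CoprodI.NeWord.singleton (i := true) a ha).append (by decide)
      (CoprodI.NeWord.singleton (i := false) x hx)).append (by decide)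
      ((CoprodI.NeWord.singleton (i := true) a⁻¹ (inv_ne_one.mpr ha)).append (by decide)
      (CoprodI.NeWord.singleton (i := false) x⁻¹ (inv_ne_one.mpr hx)))
  | k + 1 => (comWord a x ha hx k).append (by decide) (comWord a x ha hx 0)

/-- the commutator in the free product -/
def com (a x : H) : CoprodI (fun _ : Bool => H) :=
  CoprodI.of (i := true) a * CoprodI.of (i := false) x * (CoprodI.of (i := true) a)⁻¹ *
    (CoprodI.of (i := false) x)⁻¹

theorem comWord_prod (a x : H) (ha : a ≠ 1) (hx : x ≠ 1) (k : ℕ) :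
    (comWord a x ha hx k).prod = com a x ^ (k + 1) := by
  have h0 : (comWord a x ha hx 0).prod = com a x := by
    simp [comWord, com, mul_assoc]
  induction k with
  | zero => simpa using h0
  | succ k ih => 
      rw [pow_succ, ← ih, ← h0]
      simp only [comWord, CoprodI.NeWord.append_prod]

theorem com_pow_ne_one (a x : H) (ha : a ≠ 1) (hx : x ≠ 1) (k : ℕ) :
    com a x ^ (k + 1) ≠ 1 := by
  rw [← comWord_prod a x ha hx k]
  exact prod_ne_one _

end FreeProd

/-- for an element `c` of infinite order there is a function `p` with `p (c q) = ¬ p q` -/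
theorem exists_parity {Q : Type} [Group Q] (c : Q) (hc : ∀ k : ℕ, c ^ (k + 1) ≠ 1) :
    ∃ p : Q → Bool, ∀ q, p (c * q) = !(p q) := by
  classical
  have hz : ∀ k : ℤ, c ^ k = 1 → k = 0 := by
    intro k hk
    rcases Int.natAbs_eq k with h | h
    · by_contra hne
      obtain ⟨n, hn⟩ : ∃ n, k.natAbs = n + 1 := Nat.exists_eq_succ_of_ne_zero (by omega)
      apply hc n
      rw [h, hn] at hk
      exact_mod_cast hk
    · by_contra hne
      obtain ⟨n, hn⟩ : ∃ n, k.natAbs = n + 1 := Nat.exists_eq_succ_of_ne_zero (by omega)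
      apply hc n
      rw [h, hn, zpow_neg, inv_eq_one] at hk
      exact_mod_cast hk
  let s : Setoid Q := { 
    r := fun q q' => ∃ k : ℤ, q' = c ^ k * q
    iseqv := ⟨fun q => ⟨0, by simp⟩, fun {q q'} ⟨k, hk⟩ => ⟨-k, by simp [hk]⟩,
      fun {q q' q''} ⟨k, hk⟩ ⟨l, hl⟩ => ⟨l + k, by rw [hl, hk, zpow_add, mul_assoc]⟩⟩ }
  let rep : Q → Q := fun q => (Quotient.mk s q).out
  have hrep : ∀ q, ∃ k : ℤ, q = c ^ k * rep q := by
    intro q
    have : s.r (rep q) q := Quotient.exact (Quotient.out_eq (Quotient.mk s q))
    exact this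
  have hrepc : ∀ q, rep (c * q) = rep q := by
    intro q
    have : Quotient.mk s (c * q) = Quotient.mk s q := by
      apply Quotient.sound
      exact ⟨-1, by simp⟩
    simp only [rep, this]
  choose e he using hrep
  have hee : ∀ q, e (c * q) = e q + 1 := by
    intro q
    have h1 := he (c * q)
    rw [hrepc] at h1
    have h2 : c * q = c ^ (e q + 1) * rep q := by
      rw [add_comm, zpow_add, zpow_one, mul_assoc, ← he q]
    have h3 := mul_right_cancel (h2.symm.trans h1)
    have h4 : c ^ (e (c * q) - (e q + 1)) = 1 := by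
      rw [zpow_sub, ← h3, mul_inv_cancel]
    have := hz _ h4
    omega
  refine ⟨fun q => decide (Even (e q)), fun q => ?_⟩
  show decide (Even (e (c * q))) = !decide (Even (e q))
  rw [hee]
  by_cases h : Even (e q)
  · have : ¬ Even (e q + 1) := by
      rw [Int.even_add_one]; simpa using h
    simp [h, this]
  · have : Even (e q + 1) := by
      rw [Int.even_add_one]; exact h
    simp [h, this]

end Pool.Agent.L7h8.DD
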