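import Pool.Agent.L7h8.DD.Grp

/-!
# MP_d40431_gt: the reduction of the word problem
-/

namespace Pool.Agent.L7h8.DD

open Monoid

/-- words of `U` as words in two more generators `x = x_m`, `b = x_(m+1)` -/
def emb {m : ℕ} (w : Word m) : Word (m + 2) := w.map (fun p => (Fin.castAdd 2 p.1, p.2))

/-- the generator `x` -/
def gx (m : ℕ) : Word (m + 2) := [(Fin.natAdd m 0, true)]

/-- the generator `b` -/
def gb (m : ℕ) : Word (m + 2) := [(Fin.natAdd m 1, true)]

/-- the inverse word -/
def iv {m : ℕ} (a : Word m) : Word m := (a.map (fun p => (p.1, !p.2))).reverse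

/-- the commutator -/
def cm {m : ℕ} (a b : Word m) : Word m := a ++ b ++ iv a ++ iv b

/-- the word `z = [[w, x], b]` -/
def zw {m : ℕ} (w : Word m) : Word (m + 2) := cm (cm (emb w) (gx m)) (gb m)

/-- the relators of `U`, and `[z, x_i]`, `z^2` -/
def rels {m : ℕ} (R : List (Word m)) (w : Word m) : List (Word (m + 2)) :=
  R.map emb ++ ((List.finRange (m + 2)).map (fun i => cm (zw w) [(i, true)]) ++ [zw w ++ zw w])

/-- the framed link: all relators with framing false, and `z` with framing true -/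
def hd {m : ℕ} (R : List (Word m)) (w : Word m) : Handles (m + 2) :=
  (zw w, true) :: (rels R w).map (fun r => (r, false))

theorem mk_iv {m : ℕ} (a : Word m) : FreeGroup.mk (iv a) = (FreeGroup.mk a)⁻¹ := by
  rw [FreeGroup.inv_mk]; rfl

theorem mk_cm {m : ℕ} (a b : Word m) : FreeGroup.mk (cm a b) =
    FreeGroup.mk a * FreeGroup.mk b * (FreeGroup.mk a)⁻¹ * (FreeGroup.mk b)⁻¹ := by
  unfold cm
  rw [← mk_iv, ← mk_iv, FreeGroup.mul_mk, FreeGroup.mul_mk, FreeGroup.mul_mk]

theorem mk_emb {m : ℕ} (a : Word m) :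
    FreeGroup.mk (emb a) = FreeGroup.map (Fin.castAdd 2) (FreeGroup.mk a) := by
  rw [FreeGroup.map.mk]; rfl

/-- the yes case: if `w = 1` in `U` then `z` is trivial -/
theorem zw_trivial {m : ℕ} (R : List (Word m)) (w : Word m) (h : IsTrivial R w) :
    IsTrivial (rels R w) (zw w) := by
  set N := Subgroup.normalClosure {g : FreeGroup (Fin (m + 2)) | ∃ r ∈ rels R w, g = FreeGroup.mk r}
    with hN
  let π := QuotientGroup.mk' N
  have hk : ∀ g, π g = 1 ↔ g ∈ N := fun g => QuotientGroup.eq_one_iff g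
  show FreeGroup.mk (zw w) ∈ N
  rw [← hk]
  have h1 : FreeGroup.mk w ∈ (π.comp (FreeGroup.map (Fin.castAdd 2))).ker := by
    refine (Subgroup.normalClosure_le_normal ?_ : _ ≤ (π.comp (FreeGroup.map (Fin.castAdd 2))).ker) h
    rintro g ⟨r, hr, rfl⟩
    show π (FreeGroup.map (Fin.castAdd 2) (FreeGroup.mk r)) = 1
    rw [hk, ← mk_emb]
    apply Subgroup.subset_normalClosure
    refine ⟨emb r, ?_, rfl⟩
    unfold rels
    exact List.mem_append_left _ (List.mem_map_of_mem hr)
  have h2 : π (FreeGroup.mk (emb w)) = 1 := by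
    rw [mk_emb]; exact h1
  unfold zw
  rw [mk_cm, mk_cm]
  simp only [map_mul, map_inv, h2]
  group

section No
variable {Q : Type} [Group Q]

/-- left multiplication on `Q × {±1}` -/
def lm : Q →* Equiv.Perm (Q × Bool) where
  toFun q := (Equiv.mulLeft q).prodCongr (Equiv.refl Bool)
  map_one' := by ext ⟨a, s⟩ <;> simp
  map_mul' q r := by ext ⟨a, s⟩ <;> simp [mul_assoc]

/-- the sign -/
def sg : Equiv.Perm (Q × Bool) where
  toFun a := (a.1, !a.2)
  invFun a := (a.1, !a.2)
  left_inv a := by simp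
  right_inv a := by simp

/-- the diagonal signs `(-1)^p` -/
def dg (p : Q → Bool) : Equiv.Perm (Q × Bool) where
  toFun a := (a.1, xor a.2 (p a.1))
  invFun a := (a.1, xor a.2 (p a.1))
  left_inv a := by simp
  right_inv a := by simp

theorem dg_comm (p : Q → Bool) (c : Q) (hp : ∀ q, p (c * q) = !(p q)) :
    lm c * dg p * (lm c)⁻¹ * (dg p)⁻¹ = sg := by
  rw [mul_inv_eq_iff_eq_mul, mul_inv_eq_iff_eq_mul]
  ext ⟨q, s⟩
  · simp [lm, dg, sg]
  · simp [lm, dg, sg, hp]

end No

/-- the no case: if `w ≠ 1` in `U`, then the universal cover is spin -/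
theorem spinCover_of_not_trivial {m : ℕ} (R : List (Word m)) (w : Word m)
    (h : ¬ IsTrivial R w) : SpinCover (hd R w) := by
  set N := Subgroup.normalClosure {g : FreeGroup (Fin m) | ∃ r ∈ R, g = FreeGroup.mk r} with hN
  let U := FreeGroup (Fin m) ⧸ N
  let π : FreeGroup (Fin m) →* U := QuotientGroup.mk' N
  have hk : ∀ g, π g = 1 ↔ g ∈ N := fun g => QuotientGroup.eq_one_iff g
  let H := U × Multiplicative ℤ
  let Q := CoprodI (fun _ : Bool => H)
  let ψ : FreeGroup (Fin m) →* Q :=
    (CoprodI.of (M := fun _ : Bool => H) (i := true)).comp ((MonoidHom.inl U (Multiplicative ℤ)).comp π)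
  let X : Q := CoprodI.of (M := fun _ : Bool => H) (i := false) (1, Multiplicative.ofAdd 1)
  let c : Q := ψ (FreeGroup.mk w) * X * (ψ (FreeGroup.mk w))⁻¹ * X⁻¹
  have hc : ∀ k : ℕ, c ^ (k + 1) ≠ 1 := by
    intro k
    refine com_pow_ne_one (H := H) (π (FreeGroup.mk w), 1) (1, Multiplicative.ofAdd 1) ?_ ?_ k
    · intro he
      apply h
      show FreeGroup.mk w ∈ N
      rw [← hk]
      exact (Prod.ext_iff.mp he).1
    · intro he
      have := (Prod.ext_iff.mp he).2
      simp at this
  obtain ⟨p, hp⟩ := exists_parity c hc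
  let gens : Fin (m + 2) → Equiv.Perm (Q × Bool) :=
    Fin.addCases (motive := fun _ => Equiv.Perm (Q × Bool)) (fun i => lm (ψ (FreeGroup.of i)))
      (fun j => if j = 0 then lm X else dg p)
  let φ : FreeGroup (Fin (m + 2)) →* Equiv.Perm (Q × Bool) := FreeGroup.lift gens
  have hφe : ∀ v : Word m, φ (FreeGroup.mk (emb v)) = lm (ψ (FreeGroup.mk v)) := by
    intro v
    rw [mk_emb]
    have : φ.comp (FreeGroup.map (Fin.castAdd 2)) = lm.comp ψ := by
      apply FreeGroup.ext_hom
      intro i
      simp [φ, gens]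
    exact DFunLike.congr_fun this (FreeGroup.mk v)
  have hφx : φ (FreeGroup.mk (gx m)) = lm X := by
    show φ (FreeGroup.of _) = _
    simp [φ, gens]
  have hφb : φ (FreeGroup.mk (gb m)) = dg p := by
    show φ (FreeGroup.of _) = _
    simp [φ, gens]
  have hφz : φ (FreeGroup.mk (zw w)) = sg := by
    unfold zw
    rw [mk_cm, mk_cm]
    simp only [map_mul, map_inv, hφe, hφx, hφb]
    have hlc : lm c = lm (ψ (FreeGroup.mk w)) * lm X * (lm (ψ (FreeGroup.mk w)))⁻¹ * (lm X)⁻¹ := by
      have hi : ∀ q : Q, lm q⁻¹ = (lm q)⁻¹ := fun q => map_inv lm q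
      simp only [c, map_mul, hi]
    rw [← hlc]
    exact dg_comm p c hp
  have hcom : ∀ g, φ g * sg = sg * φ g := by
    intro g
    induction g using FreeGroup.induction_on with
    | C1 => simp
    | of i =>
        simp only [φ, FreeGroup.lift_apply_of]
        refine Fin.addCases (fun i => ?_) (fun j => ?_) i
        · simp only [gens, Fin.addCases_left]
          ext ⟨q, s⟩ <;> simp [lm, sg]
        · simp only [gens, Fin.addCases_right]
          split_ifs
          · ext ⟨q, s⟩ <;> simp [lm, sg]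
          · ext ⟨q, s⟩ <;> simp [dg, sg]
    | inv_of i hi =>
        rw [map_inv, inv_mul_eq_iff_eq_mul, ← mul_assoc, hi, mul_assoc, mul_inv_cancel, mul_one]
    | mul a b ha hb =>
        rw [map_mul, mul_assoc, hb, ← mul_assoc, ha, mul_assoc]
  have hsg2 : (sg : Equiv.Perm (Q × Bool)) * sg = 1 := by
    ext ⟨q, s⟩ <;> simp [sg]
  refine ⟨Equiv.Perm (Q × Bool), inferInstance, sg, φ, ?_, hsg2, hcom, ?_⟩
  · intro he
    have := congrArg (fun f : Equiv.Perm (Q × Bool) => (f (1, true)).2) he
    simp [sg] at this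
  · intro r hr
    unfold hd at hr
    rcases List.mem_cons.mp hr with rfl | hr
    · simpa using hφz
    · obtain ⟨r, hr', rfl⟩ := List.mem_map.mp hr
      simp only [Bool.false_eq_true, if_false]
      unfold rels at hr'
      rcases List.mem_append.mp hr' with h1 | h1
      · obtain ⟨v, hv, rfl⟩ := List.mem_map.mp h1
        rw [hφe]
        have : π (FreeGroup.mk v) = 1 := by
          rw [hk]; exact Subgroup.subset_normalClosure ⟨v, hv, rfl⟩
        have h5 : ψ (FreeGroup.mk v) = 1 := by
          show CoprodI.of (M := fun _ : Bool => H) (i := true) (π (FreeGroup.mk v), 1) = 1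
          rw [this]; exact map_one _
        rw [h5, map_one]
      · rcases List.mem_append.mp h1 with h2 | h2
        · obtain ⟨i, -, rfl⟩ := List.mem_map.mp h2
          rw [mk_cm]
          simp only [map_mul, map_inv, hφz]
          rw [← hcom]
          group
        · rw [List.mem_singleton] at h2
          subst h2
          rw [← FreeGroup.mul_mk, map_mul, hφz, hsg2]

end Pool.Agent.L7h8.DD
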