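import Pool.Agent.L7h8.DD.Defs

/-!
# MP_d40431_gt: the theorems on 4-manifolds which are used

`N(D)` is the 5-dimensional handlebody of `D : Handles m` (see `Handles`). All manifolds below
are `M # (S^1 x~ S^3)` with `M` closed orientable, where `S^1 x~ S^3` is the nonorientable
`S^3`-bundle over the circle, so that no orientations have to be chosen in connected sums.
-/

namespace Pool.Agent.L7h8.DD

/-- `F D a b c` is a triangulation of the closed connected nonorientable 4-manifold
`∂N(D) # (S^1 x~ S^3) # a K3 # b (S^2 x S^2) # c CP^2`. The fields are the properties of these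
manifolds which are used; all are theorems of the literature. -/
structure Handlebodies (m : ℕ) (F : Handles m → ℕ → ℕ → ℕ → Cx) : Prop where
  /-- The triangulation can be computed (Markov 1958; Boone, Haken, Poenaru 1968). -/
  computable : Computable (fun p : Handles m × ℕ × ℕ × ℕ => F p.1 p.2.1 p.2.2.1 p.2.2.2)
  /-- It is a closed connected combinatorial 4-manifold. -/
  closed : ∀ D a b c, Closed4 (F D a b c)
  /-- Freedman 1982: `M # K3` and `M # 11 (S^2 x S^2)` are homeomorphic, if `M` is not
  orientable (`K3 = 2 (-E8) # 3 (S^2 x S^2)`, `M # (-E8) = M # E8`, and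
  `E8 # (-E8) = 8 (S^2 x S^2)`). -/
  freedman : ∀ D a b c, Homeo (F D (a + 1) b c) (F D a (b + 11) c)
  /-- Mandelbaum, Moishezon 1976: `K3 # CP^2 = 4 CP^2 # 19 (-CP^2)`; also
  `(S^2 x S^2) # CP^2 = 2 CP^2 # (-CP^2)`, and `M # CP^2 = M # (-CP^2)` if `M` is not
  orientable. -/
  mandelbaum_moishezon : ∀ D a b c, PLHomeo (F D (a + 1) b (c + 1)) (F D a (b + 11) (c + 1))
  /-- Milnor, Wallace, Wall: surgery on a null-homotopic circle of the spin manifold `∂N(R)`,
  with the framing over which its spin structure does not extend, is the connected sum with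
  the nontrivial `S^2`-bundle over `S^2`, which is `CP^2 # (-CP^2)`. -/
  surgery : ∀ (R : List (Word m)) (z : Word m), IsTrivial R z → ∀ a b c,
    PLHomeo (F ((z, true) :: R.map (fun r => (r, false))) a b c)
      (F (R.map (fun r => (r, false))) a b (c + 2))
  /-- Rokhlin 1952, Kreck 1984: if the universal cover of `∂N(D)` is spin, then the number of
  summands `K3` of `M_a = ∂N(D) # (S^1 x~ S^3) # a K3 # b (S^2 x S^2)` is well defined modulo
  two. (`M_a` bounds, up to `a` copies of `K3`, a handlebody `X_a` (boundary sum of `N(D)`,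
  `S^1 x~ D^4`, `b` copies of `S^2 x D^3` and `a` of `K3 x I`), which has a map to the wedge of
  `B(E/ζ)` and a circle, such that `w_1` comes from the circle and `w_2` from `B(E/ζ)`. For a PL
  homeomorphism `f : M_a → M_a'` the pull-back by `f` of the map of `M_a'` extends over `X_a`
  (the target is aspherical and `π_1(M_a) = π_1(X_a)`), and `w_1(X_a)`, `w_2(X_a)` are its
  pull-backs, since `H^i(X_a, M_a; Z/2) = 0` for `i = 1, 2` (handles of index at most two). So the
  glued manifold `Z = X_a ∪ X_a'`, with boundary `(a + a') K3`, has such a map; the transverse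
  preimage of a point of the circle is a closed spin 4-manifold `W`, cutting along `W` gives
  `2 σ(W) = 16 (sum of a + a' signs)`, and 16 divides `σ(W)`.) -/
  rokhlin_kreck : ∀ D, SpinCover D → ∀ a b a' b',
    PLHomeo (F D a b 0) (F D a' b' 0) → a ≡ a' [MOD 2]

end Pool.Agent.L7h8.DD
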